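import Pool.Agent.Lib.MP_c54df4_lc.Proof

/-!
# Divisor witnesses in monads: the answer is negative

There is an enlargement of the superstructure over the positive integers in which the
divisor-witness property fails.
-/

namespace Pool.Agent.Results.MP_c54df4_lc.NoDivisorWitness

open Pool.Agent.Lib.MP_c54df4_lc

/-- There are an enlargement of the superstructure over the positive integers, ultrafilters
`F ~| G` on the positive integers and an element `y` of the monad of `G` which is not divisible by
any element of the monad of `F`. -/
theorem result : ∃ (Y : Type) (E : NonstdExt ℕ+ Y), E.IsEnlargement ∧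
    ∃ F G : Ultrafilter ℕ+, UDvd F G ∧ ∃ y ∈ E.monad G, ∀ x ∈ E.monad F, ¬ E.Dvd x y :=
  main

end Pool.Agent.Results.MP_c54df4_lc.NoDivisorWitness
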